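import Mathlib

open MeasureTheory Filter Topology Set unitInterval

set_option autoImplicit false

namespace Pool.Agent.Results.MP_e2d9cc_pr.ManyPeninsulas

/-- A graphon on the atomless standard probability space `[0,1]` (with Lebesgue measure). -/
structure Graphon where
  /-- the values of the graphon -/
  W : I → I → ℝ
  measurable : Measurable (Function.uncurry W)
  symm : ∀ x y, W x y = W y x
  nonneg : ∀ x y, 0 ≤ W x y
  le_one : ∀ x y, W x y ≤ 1

/-- The probability that the random graph `G(n, W)` has the property `P`: sample `X : Fin n → [0,1]`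
uniformly, then make each pair `i < j` an edge independently with probability `W (X i) (X j)`. -/
noncomputable def Graphon.prob (U : Graphon) (n : ℕ) (P : SimpleGraph (Fin n) → Prop) : ℝ :=
  open Classical in
  ∑ G : SimpleGraph (Fin n) with P G, ∫ X : Fin n → I,
    ∏ e : Fin n × Fin n with e.1 < e.2,
      (if G.Adj e.1 e.2 then U.W (X e.1) (X e.2) else 1 - U.W (X e.1) (X e.2))

/-- The degree of a point. -/
noncomputable def Graphon.deg (U : Graphon) (x : I) : ℝ := ∫ y, U.W x y

/-- The graphon is connected: `∫_{S × Sᶜ} W > 0` whenever `S` and its complement have positive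
measure. -/
def Graphon.Connected (U : Graphon) : Prop :=
  ∀ S : Set I, MeasurableSet S → 0 < volume S → 0 < volume Sᶜ →
    0 < ∫ z in S ×ˢ Sᶜ, U.W z.1 z.2 ∂(volume.prod volume)

/-- Condition (ii): `μ {x | deg x ≤ α} / α → ∞` as `α → 0+`. -/
def Graphon.ManySmallDegrees (U : Graphon) : Prop :=
  Tendsto (fun α : ℝ => volume.real {x | U.deg x ≤ α} / α) (𝓝[>] 0) atTop

/-- Condition (iii): the graphon has a narrow peninsula (`W = 0` almost everywhere on
`A × (A ∪ B)`). -/
def Graphon.NarrowPeninsula (U : Graphon) : Prop :=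
  ∃ (a : ℝ) (A B : Set I), 0 < a ∧ a ≤ 1 / 2 ∧ MeasurableSet A ∧ MeasurableSet B ∧ Disjoint A B ∧
    a < volume.real A ∧ volume.real B = 1 - 2 * a ∧
    ∀ᵐ z : I × I ∂(volume.prod volume), z.1 ∈ A → z.2 ∈ A ∪ B → U.W z.1 z.2 = 0

/-- Condition (iv): the graphon is bipartite with two sides of measure `1/2`. -/
def Graphon.BalancedBipartite (U : Graphon) : Prop :=
  ∃ S : Set I, MeasurableSet S ∧ volume.real S = 1 / 2 ∧ volume.real Sᶜ = 1 / 2 ∧
    ∀ᵐ z : I × I ∂(volume.prod volume), z ∈ (S ×ˢ S) ∪ (Sᶜ ×ˢ Sᶜ) → U.W z.1 z.2 = 0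

/-! ### Hamilton cycles and independent sets with few neighbours -/

section Ham

variable {V : Type*} [Fintype V] [DecidableEq V]

/-- A cyclic successor map from a Hamilton cycle. -/
lemma exists_next {G : SimpleGraph V} (h : G.IsHamiltonian) (h1 : Fintype.card V ≠ 1) :
    ∃ τ : Equiv.Perm V, (∀ v, G.Adj v (τ v)) ∧
      ∀ S : Finset V, S.Nonempty → (∀ v ∈ S, τ v ∈ S) → S = Finset.univ := by
  obtain ⟨a, p, hp⟩ := h h1
  have hlen : p.length = Fintype.card V := hp.length_eq
  have hpos : 0 < Fintype.card V := Fintype.card_pos_iff.2 ⟨a⟩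
  obtain ⟨m, hm⟩ : ∃ m, Fintype.card V = m + 1 := ⟨Fintype.card V - 1, by omega⟩
  have hs : p.tail.support.length = m + 1 := by rw [hp.isHamiltonian_tail.length_support, hm]
  let e0 : Fin p.tail.support.length ≃ V := hp.isHamiltonian_tail.getVertEquiv
  let e : Fin (m + 1) ≃ V := (finCongr hs.symm).trans e0
  have he : ∀ i : Fin (m + 1), e i = p.getVert (i.1 + 1) := by
    intro i
    change p.tail.getVert i.1 = _
    rw [SimpleGraph.Walk.getVert_tail]
  refine ⟨(e.symm.trans (finRotate (m + 1))).trans e, ?_, ?_⟩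
  · intro v
    obtain ⟨i, rfl⟩ := e.surjective v
    simp only [Equiv.trans_apply, Equiv.symm_apply_apply]
    rw [he, he]
    by_cases hi : i = Fin.last m
    · subst hi
      rw [finRotate_last]
      have h0 : p.getVert ((Fin.last m : Fin (m+1)).1 + 1) = p.getVert 0 := by
        rw [SimpleGraph.Walk.getVert_zero]
        have : (Fin.last m : Fin (m+1)).1 + 1 = p.length := by simp [hlen, hm]
        rw [this, SimpleGraph.Walk.getVert_length]
      rw [h0]
      exact p.adj_getVert_succ (by rw [hlen]; exact hpos)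
    · have hi' : i.1 < m := by
        have := i.2
        have h2 : i.1 ≠ m := fun h => hi (Fin.ext h)
        omega
      have : (finRotate (m + 1) i).1 = i.1 + 1 := by
        rw [coe_finRotate_of_ne_last hi]
      rw [this]
      exact p.adj_getVert_succ (by rw [hlen, hm]; omega)
  · intro S hS hcl
    obtain ⟨v0, hv0⟩ := hS
    have key : ∀ k : ℕ, ((finRotate (m + 1)) ^ k) (e.symm v0) ∈ S.map e.symm.toEmbedding := by
      intro k
      induction k with
      | zero => simpa using hv0
      | succ k ih =>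
        rw [pow_succ', Equiv.Perm.mul_apply]
        rw [Finset.mem_map] at ih ⊢
        obtain ⟨w, hw, hwe⟩ := ih
        refine ⟨_, hcl w hw, ?_⟩
        simp only [Equiv.trans_apply, Equiv.coe_toEmbedding, Equiv.symm_apply_apply]
        rw [← hwe]
        rfl
    rw [Finset.eq_univ_iff_forall]
    intro v
    have h2 : ∃ k : ℕ, ((finRotate (m + 1)) ^ k) (e.symm v0) = e.symm v := by
      have h3 : ∀ (k : ℕ) (i : Fin (m+1)), (((finRotate (m + 1)) ^ k) i).1 = (i.1 + k) % (m + 1) := by
        intro k i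
        induction k with
        | zero => simp [Nat.mod_eq_of_lt i.2]
        | succ k ih =>
          rw [pow_succ', Equiv.Perm.mul_apply, finRotate_apply, Fin.val_add, ih, Fin.val_one']
          rw [← Nat.add_mod, add_assoc]
      refine ⟨(e.symm v).1 + (m + 1 - (e.symm v0).1), ?_⟩
      apply Fin.ext
      rw [h3]
      have h4 := (e.symm v0).2
      have h5 := (e.symm v).2
      have : (e.symm v0).1 + ((e.symm v).1 + (m + 1 - (e.symm v0).1)) = (e.symm v).1 + (m + 1) := by
        omega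
      rw [this, Nat.add_mod_right, Nat.mod_eq_of_lt h5]
    obtain ⟨k, hk⟩ := h2
    have := key k
    rw [hk, Finset.mem_map] at this
    obtain ⟨w, hw, hwe⟩ := this
    have : w = v := e.symm.injective hwe
    rwa [← this]

/-- In a Hamiltonian graph, a nonempty independent set `A` whose neighbours all lie in `C` is smaller
than `C`, unless `A ∪ C` is everything. -/
lemma card_lt {G : SimpleGraph V} (h : G.IsHamiltonian) (h1 : Fintype.card V ≠ 1)
    (A C : Finset V) (hA : A.Nonempty)
    (hN : ∀ x ∈ A, ∀ y, G.Adj x y → y ∈ C) (hz : ∃ z, z ∉ A ∧ z ∉ C) : A.card < C.card := by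
  obtain ⟨τ, hτ, hcl⟩ := exists_next h h1
  by_contra hlt
  push Not at hlt
  have hsub : A.map τ.toEmbedding ⊆ C := by
    intro y hy
    rw [Finset.mem_map] at hy
    obtain ⟨x, hx, rfl⟩ := hy
    exact hN x hx _ (hτ x)
  have heq : A.map τ.toEmbedding = C :=
    Finset.eq_of_subset_of_card_le hsub (by rw [Finset.card_map]; exact hlt)
  have hsub' : A.map τ.symm.toEmbedding ⊆ C := by
    intro y hy
    rw [Finset.mem_map] at hy
    obtain ⟨x, hx, rfl⟩ := hy
    refine hN x hx _ ?_
    have := hτ (τ.symm x)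
    simp only [Equiv.apply_symm_apply] at this
    exact this.symm
  have heq' : A.map τ.symm.toEmbedding = C :=
    Finset.eq_of_subset_of_card_le hsub' (by rw [Finset.card_map]; exact hlt)
  have huniv : A ∪ C = Finset.univ := by
    refine hcl _ (hA.mono Finset.subset_union_left) ?_
    intro v hv
    rw [Finset.mem_union] at hv ⊢
    rcases hv with hv | hv
    · right
      rw [← heq]
      exact Finset.mem_map_of_mem τ.toEmbedding hv
    · left
      rw [← heq', Finset.mem_map] at hv
      obtain ⟨x, hx, rfl⟩ := hv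
      simpa using hx
  obtain ⟨z, hz1, hz2⟩ := hz
  have := Finset.mem_univ z
  rw [← huniv, Finset.mem_union] at this
  tauto

end Ham

/-! ### The labels -/

/-- The position of a point inside its half of `[0,1]`. -/
noncomputable def pos (x : I) : ℝ := if (1 / 2 : ℝ) ≤ x then (x : ℝ) - 1 / 2 else x

/-- The label `(i, b)` of a point: `b` tells whether the point is in the right half, and
`2^{-(i+2)} ≤ pos x < 2^{-(i+1)}` (up to three exceptional points). -/
noncomputable def L (x : I) : ℕ × Bool :=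
  (⌈-Real.logb 2 (pos x)⌉₊ - 2, if (1 / 2 : ℝ) ≤ x then true else false)

lemma measurable_pos : Measurable pos := by
  unfold pos
  refine Measurable.ite ?_ (by fun_prop) (by fun_prop)
  exact measurableSet_le measurable_const measurable_subtype_coe

lemma measurable_L : Measurable L := by
  unfold L
  refine Measurable.prodMk ?_ ?_
  · have h1 : Measurable fun x : I => ⌈-Real.logb 2 (pos x)⌉₊ := by
      refine Nat.measurable_ceil.comp ?_
      exact ((Real.measurable_log.comp measurable_pos).div_const _).neg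
    exact (measurable_of_countable (fun n : ℕ => n - 2)).comp h1
  · refine Measurable.ite ?_ measurable_const measurable_const
    exact measurableSet_le measurable_const measurable_subtype_coe

lemma level_iff {y : ℝ} (h0 : 0 < y) (h1 : y < 1 / 2) (i : ℕ) :
    ⌈-Real.logb 2 y⌉₊ - 2 = i ↔ (1 / 2 : ℝ) ^ (i + 2) ≤ y ∧ y < (1 / 2 : ℝ) ^ (i + 1) := by
  have hz : 1 < -Real.logb 2 y := by
    have : Real.logb 2 y < -1 := by
      rw [Real.logb_lt_iff_lt_rpow (by norm_num) h0]
      rw [Real.rpow_neg_one]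
      linarith
    linarith
  have hc : 2 ≤ ⌈-Real.logb 2 y⌉₊ := by
    have : 1 < ⌈-Real.logb 2 y⌉₊ := Nat.lt_ceil.2 (by exact_mod_cast hz)
    omega
  have e1 : (⌈-Real.logb 2 y⌉₊ - 2 = i) ↔ ⌈-Real.logb 2 y⌉₊ = i + 2 := by omega
  rw [e1, Nat.ceil_eq_iff (by omega)]
  have p1 : (1 / 2 : ℝ) ^ (i + 2) = (2 : ℝ) ^ (-((i : ℝ) + 2)) := by
    rw [Real.rpow_neg (by norm_num), one_div, inv_pow]
    congr 1
    rw [← Real.rpow_natCast]
    push_cast
    rfl
  have p2 : (1 / 2 : ℝ) ^ (i + 1) = (2 : ℝ) ^ (-((i : ℝ) + 1)) := by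
    rw [Real.rpow_neg (by norm_num), one_div, inv_pow]
    congr 1
    rw [← Real.rpow_natCast]
    push_cast
    rfl
  rw [p1, p2]
  have q1 : (2 : ℝ) ^ (-((i : ℝ) + 2)) ≤ y ↔ -((i : ℝ) + 2) ≤ Real.logb 2 y :=
    (Real.le_logb_iff_rpow_le (by norm_num) h0).symm
  have q2 : y < (2 : ℝ) ^ (-((i : ℝ) + 1)) ↔ Real.logb 2 y < -((i : ℝ) + 1) :=
    (Real.logb_lt_iff_lt_rpow (by norm_num) h0).symm
  rw [q1, q2]
  have : (i + 2 - 1 : ℕ) = i + 1 := by omega
  rw [this]
  push_cast
  constructor
  · rintro ⟨h, h'⟩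
    exact ⟨by linarith, by linarith⟩
  · rintro ⟨h, h'⟩
    exact ⟨by linarith, by linarith⟩

lemma half_pow_mem (i : ℕ) : (1 / 2 : ℝ) ^ i ∈ Set.Icc (0 : ℝ) 1 :=
  ⟨by positivity, pow_le_one₀ (by norm_num) (by norm_num)⟩

lemma half_pow_le (i : ℕ) : (1 / 2 : ℝ) ^ (i + 1) ≤ 1 / 2 := by
  rw [pow_succ]
  have := (half_pow_mem i).2
  linarith

lemma L_false {x : I} (h0 : (x : ℝ) ≠ 0) (i : ℕ) :
    L x = (i, false) ↔ (1 / 2 : ℝ) ^ (i + 2) ≤ x ∧ (x : ℝ) < (1 / 2 : ℝ) ^ (i + 1) := by
  have h0' : 0 < (x : ℝ) := lt_of_le_of_ne x.2.1 (Ne.symm h0)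
  unfold L pos
  by_cases h : (1 / 2 : ℝ) ≤ x
  · simp only [h, if_true]
    constructor
    · intro h'
      simp at h'
    · rintro ⟨-, h'⟩
      have := half_pow_le i
      linarith
  · simp only [h, if_false]
    push Not at h
    rw [← level_iff h0' h i]
    simp

lemma L_true {x : I} (h0 : (x : ℝ) ≠ 1 / 2) (h1 : (x : ℝ) ≠ 1) (i : ℕ) :
    L x = (i, true) ↔ 1 / 2 + (1 / 2 : ℝ) ^ (i + 2) ≤ x ∧
      (x : ℝ) < 1 / 2 + (1 / 2 : ℝ) ^ (i + 1) := by
  have h1' : (x : ℝ) < 1 := lt_of_le_of_ne x.2.2 h1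
  unfold L pos
  by_cases h : (1 / 2 : ℝ) ≤ x
  · have h' : 1 / 2 < (x : ℝ) := lt_of_le_of_ne h (Ne.symm h0)
    simp only [h, if_true]
    have := level_iff (y := (x : ℝ) - 1 / 2) (by linarith) (by linarith) i
    rw [Prod.mk.injEq, this]
    constructor
    · rintro ⟨⟨a, b⟩, -⟩
      exact ⟨by linarith, by linarith⟩
    · rintro ⟨a, b⟩
      exact ⟨⟨by linarith, by linarith⟩, rfl⟩
  · simp only [h, if_false]
    constructor
    · intro h'
      simp at h'
    · rintro ⟨h', -⟩
      have : (0 : ℝ) < (1 / 2 : ℝ) ^ (i + 2) := by positivity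
      exact absurd (by linarith) h

lemma ae_ne (c : ℝ) : ∀ᵐ x : I, (x : ℝ) ≠ c := by
  by_cases hc : c ∈ Set.Icc (0 : ℝ) 1
  · have : ∀ᵐ x : I, x ≠ ⟨c, hc⟩ := by
      rw [ae_iff]
      simp
    filter_upwards [this] with x hx h
    exact hx (Subtype.ext h)
  · filter_upwards with x h
    exact hc (h ▸ x.2)

lemma vol_false (i : ℕ) : (volume : Measure I) (L ⁻¹' {(i, false)}) = ENNReal.ofReal ((1 / 2 : ℝ) ^ (i + 2)) := by
  have h : L ⁻¹' {(i, false)} =ᵐ[volume]
      Set.Ico (⟨(1 / 2 : ℝ) ^ (i + 2), half_pow_mem _⟩ : I) ⟨(1 / 2 : ℝ) ^ (i + 1), half_pow_mem _⟩ := by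
    filter_upwards [ae_ne 0] with x hx
    have := L_false hx i
    exact propext (Iff.trans (by rfl) (this.trans (by rfl)))
  rw [measure_congr h, unitInterval.volume_Ico]
  congr 1
  simp only
  ring

lemma vol_true (i : ℕ) : (volume : Measure I) (L ⁻¹' {(i, true)}) = ENNReal.ofReal ((1 / 2 : ℝ) ^ (i + 2)) := by
  have m1 : (1 / 2 + (1 / 2 : ℝ) ^ (i + 2)) ∈ Set.Icc (0 : ℝ) 1 :=
    ⟨by positivity, by have := half_pow_le (i + 1); linarith⟩
  have m2 : (1 / 2 + (1 / 2 : ℝ) ^ (i + 1)) ∈ Set.Icc (0 : ℝ) 1 :=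
    ⟨by positivity, by have := half_pow_le i; linarith⟩
  have h : L ⁻¹' {(i, true)} =ᵐ[volume]
      Set.Ico (⟨1 / 2 + (1 / 2 : ℝ) ^ (i + 2), m1⟩ : I) ⟨1 / 2 + (1 / 2 : ℝ) ^ (i + 1), m2⟩ := by
    filter_upwards [ae_ne (1 / 2), ae_ne 1] with x hx hx'
    have := L_true hx hx' i
    exact propext (Iff.trans (by rfl) (this.trans (by rfl)))
  rw [measure_congr h, unitInterval.volume_Ico]
  congr 1
  simp only
  ring

lemma vol_L (p : ℕ × Bool) : (volume : Measure I) (L ⁻¹' {p}) = ENNReal.ofReal ((1 / 2 : ℝ) ^ (p.1 + 2)) := by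
  obtain ⟨i, b⟩ := p
  cases b
  · exact vol_false i
  · exact vol_true i

/-- The adjacency rule between labels: all `true` labels are joined, and `(i, false)` is joined to
`(i, true)` only. -/
def w (p q : ℕ × Bool) : Bool := (p.2 && q.2) || ((p.2 != q.2) && (p.1 == q.1))

lemma w_symm (p q : ℕ × Bool) : w p q = w q p := by
  obtain ⟨i, b⟩ := p
  obtain ⟨j, c⟩ := q
  cases b <;> cases c <;> simp [w, eq_comm]

/-- The graphon of the counterexample. -/
noncomputable def W0 : Graphon where
  W x y := if w (L x) (L y) = true then 1 else 0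
  measurable := by
    have h1 : Measurable fun z : I × I => (L z.1, L z.2) :=
      (measurable_L.comp measurable_fst).prodMk (measurable_L.comp measurable_snd)
    exact (measurable_of_countable
      (fun z : (ℕ × Bool) × (ℕ × Bool) => if w z.1 z.2 = true then (1 : ℝ) else 0)).comp h1
  symm x y := by rw [w_symm]
  nonneg x y := by split_ifs <;> norm_num
  le_one x y := by split_ifs <;> norm_num

lemma W0_apply (x y : I) : W0.W x y = if w (L x) (L y) = true then 1 else 0 := rfl

lemma meas_L (p : ℕ × Bool) : MeasurableSet (L ⁻¹' {p}) :=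
  measurable_L (measurableSet_singleton p)

lemma vol_L_pos (p : ℕ × Bool) : 0 < (volume : Measure I) (L ⁻¹' {p}) := by
  rw [vol_L]
  simp

/-- A rectangle in the support of `W0` inside a null set is null. -/
lemma null_of {P Q : Set I} {N : Set (I × I)} (hN : (volume.prod volume : Measure (I × I)) N = 0)
    {p q : ℕ × Bool} (h : (L ⁻¹' {p} ∩ P) ×ˢ (L ⁻¹' {q} ∩ Q) ⊆ N) :
    (volume : Measure I) (L ⁻¹' {p} ∩ P) = 0 ∨ (volume : Measure I) (L ⁻¹' {q} ∩ Q) = 0 := by
  have h1 := measure_mono_null h hN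
  rw [Measure.prod_prod] at h1
  simpa using h1

lemma vol_eq_tsum (S : Set I) (hS : MeasurableSet S) :
    (volume : Measure I) S = ∑' p : ℕ × Bool, (volume : Measure I) (L ⁻¹' {p} ∩ S) := by
  have h : S = ⋃ p : ℕ × Bool, (L ⁻¹' {p} ∩ S) := by
    ext x
    simp
  conv_lhs => rw [h]
  refine measure_iUnion ?_ (fun p => (meas_L p).inter hS)
  intro p q hpq
  refine Set.disjoint_left.2 ?_
  rintro x ⟨hx, -⟩ ⟨hx', -⟩
  exact hpq (hx.symm.trans hx')

lemma eq_zero_of (S : Set I) (hS : MeasurableSet S)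
    (h : ∀ p : ℕ × Bool, (volume : Measure I) (L ⁻¹' {p} ∩ S) = 0) : (volume : Measure I) S = 0 := by
  rw [vol_eq_tsum S hS]
  simp [h]

lemma compl_zero (S : Set I) (hS : MeasurableSet S) (p : ℕ × Bool)
    (h : (volume : Measure I) (L ⁻¹' {p} ∩ S) = 0) :
    (volume : Measure I) (L ⁻¹' {p} ∩ Sᶜ) = (volume : Measure I) (L ⁻¹' {p}) := by
  have := measure_inter_add_sdiff (μ := (volume : Measure I)) (L ⁻¹' {p}) hS
  rw [h, zero_add] at this
  rw [← this]
  rfl

lemma W0_connected : W0.Connected := by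
  intro S hS h0 h1
  have hint : Integrable (fun z : I × I => W0.W z.1 z.2) (volume.prod volume) := by
    refine Integrable.of_bound (C := 1) W0.measurable.aestronglyMeasurable ?_
    filter_upwards with z
    rw [Real.norm_eq_abs, abs_of_nonneg (W0.nonneg _ _)]
    exact W0.le_one _ _
  rw [setIntegral_pos_iff_support_of_nonneg_ae (Filter.Eventually.of_forall fun z => W0.nonneg _ _)
    hint.integrableOn]
  rw [pos_iff_ne_zero]
  intro hN
  have key : ∀ p q : ℕ × Bool, w p q = true → (volume : Measure I) (L ⁻¹' {p} ∩ S) = 0 ∨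
      (volume : Measure I) (L ⁻¹' {q} ∩ Sᶜ) = 0 := by
    intro p q hpq
    refine null_of hN ?_
    rintro ⟨x, y⟩ ⟨⟨hx, hx'⟩, ⟨hy, hy'⟩⟩
    refine ⟨?_, hx', hy'⟩
    have hx2 : L x = p := hx
    have hy2 : L y = q := hy
    simp [Function.mem_support, W0_apply, hx2, hy2, hpq]
  rcases key (0, true) (0, true) rfl with h | h
  · -- the part of `S` is null
    have hc := compl_zero S hS _ h
    have ht : ∀ j, (volume : Measure I) (L ⁻¹' {(j, true)} ∩ S) = 0 := by
      intro j
      rcases key (j, true) (0, true) rfl with h' | h'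
      · exact h'
      · rw [hc] at h'
        exact absurd h' (vol_L_pos _).ne'
    have hf : ∀ j, (volume : Measure I) (L ⁻¹' {(j, false)} ∩ S) = 0 := by
      intro j
      rcases key (j, false) (j, true) (by simp [w]) with h' | h'
      · exact h'
      · rw [compl_zero S hS _ (ht j)] at h'
        exact absurd h' (vol_L_pos _).ne'
    refine h0.ne' (eq_zero_of S hS ?_)
    rintro ⟨j, b⟩
    cases b
    · exact hf j
    · exact ht j
  · have hc := compl_zero Sᶜ hS.compl _ h
    rw [compl_compl] at hc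
    have ht : ∀ j, (volume : Measure I) (L ⁻¹' {(j, true)} ∩ Sᶜ) = 0 := by
      intro j
      rcases key (0, true) (j, true) rfl with h' | h'
      · rw [hc] at h'
        exact absurd h' (vol_L_pos _).ne'
      · exact h'
    have hf : ∀ j, (volume : Measure I) (L ⁻¹' {(j, false)} ∩ Sᶜ) = 0 := by
      intro j
      rcases key (j, true) (j, false) (by simp [w]) with h' | h'
      · have := compl_zero Sᶜ hS.compl _ (ht j)
        rw [compl_compl, h'] at this
        exact absurd this.symm (vol_L_pos _).ne'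
      · exact h'
    refine h1.ne' (eq_zero_of Sᶜ hS.compl ?_)
    rintro ⟨j, b⟩
    cases b
    · exact hf j
    · exact ht j

lemma W0_not_bipartite : ¬ W0.BalancedBipartite := by
  rintro ⟨S, hS, -, -, hae⟩
  rw [ae_iff] at hae
  have key : ∀ T : Set I, T ×ˢ T ⊆ (S ×ˢ S) ∪ (Sᶜ ×ˢ Sᶜ) →
      (volume : Measure I) (L ⁻¹' {((0, true) : ℕ × Bool)} ∩ T) = 0 := by
    intro T hT
    have := null_of (P := T) (Q := T) hae (p := (0, true)) (q := (0, true)) ?_
    · simpa using this
    · rintro ⟨x, y⟩ ⟨⟨hx, hx'⟩, ⟨hy, hy'⟩⟩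
      have hx2 : L x = (0, true) := hx
      have hy2 : L y = (0, true) := hy
      intro hcon
      have := hcon (hT ⟨hx', hy'⟩)
      simp [W0_apply, hx2, hy2, w] at this
  have h1 := key S Set.subset_union_left
  have h2 := key Sᶜ Set.subset_union_right
  rw [compl_zero S hS _ h1] at h2
  exact (vol_L_pos _).ne' h2

lemma W0_no_peninsula : ¬ W0.NarrowPeninsula := by
  rintro ⟨a, A, B, ha0, ha, hA, hB, hAB, hAa, hBa, hae⟩
  rw [ae_iff] at hae
  set T : Set I := A ∪ B with hT
  have hTm : MeasurableSet T := hA.union hB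
  have key : ∀ p q : ℕ × Bool, w p q = true → (volume : Measure I) (L ⁻¹' {p} ∩ A) = 0 ∨
      (volume : Measure I) (L ⁻¹' {q} ∩ T) = 0 := by
    intro p q hpq
    refine null_of hae ?_
    rintro ⟨x, y⟩ ⟨⟨hx, hx'⟩, ⟨hy, hy'⟩⟩
    have hx2 : L x = p := hx
    have hy2 : L y = q := hy
    intro hcon
    have := hcon hx' hy'
    simp [W0_apply, hx2, hy2, hpq] at this
  have ht : ∀ j, (volume : Measure I) (L ⁻¹' {(j, true)} ∩ A) = 0 := by
    intro j
    rcases key (j, true) (j, true) rfl with h | h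
    · exact h
    · exact measure_mono_null (Set.inter_subset_inter_right _ Set.subset_union_left) h
  have hf : ∀ j, (volume : Measure I) (L ⁻¹' {(j, false)} ∩ A) ≤
      (volume : Measure I) (L ⁻¹' {(j, true)} ∩ Tᶜ) := by
    intro j
    rcases key (j, false) (j, true) (by simp [w]) with h | h
    · rw [h]
      exact zero_le
    · rw [compl_zero T hTm _ h]
      calc (volume : Measure I) (L ⁻¹' {(j, false)} ∩ A) ≤ (volume : Measure I) (L ⁻¹' {(j, false)}) :=
            measure_mono Set.inter_subset_left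
        _ = _ := by rw [vol_L, vol_L]
  have hle : (volume : Measure I) A ≤ (volume : Measure I) Tᶜ := by
    rw [vol_eq_tsum A hA, vol_eq_tsum Tᶜ hTm.compl]
    rw [ENNReal.tsum_prod (f := fun j b => (volume : Measure I) (L ⁻¹' {((j, b) : ℕ × Bool)} ∩ A)),
      ENNReal.tsum_prod (f := fun j b => (volume : Measure I) (L ⁻¹' {((j, b) : ℕ × Bool)} ∩ Tᶜ))]
    refine ENNReal.tsum_le_tsum fun j => ?_
    rw [tsum_bool, tsum_bool, ht j, add_zero]
    exact (hf j).trans (le_add_self)
  have hle' : volume.real A ≤ volume.real Tᶜ :=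
    ENNReal.toReal_mono (measure_ne_top _ _) hle
  rw [probReal_compl_eq_one_sub hTm, hT, measureReal_union hAB hB] at hle'
  linarith

lemma deg_false {x : I} {i : ℕ} (hx : L x = (i, false)) : W0.deg x = (1 / 2 : ℝ) ^ (i + 2) := by
  unfold Graphon.deg
  have : (fun y => W0.W x y) = Set.indicator (L ⁻¹' {(i, true)}) (fun _ => (1 : ℝ)) := by
    funext y
    rw [W0_apply, hx]
    by_cases hy : L y = (i, true)
    · rw [Set.indicator_of_mem (by exact hy), hy]
      simp [w]
    · rw [Set.indicator_of_notMem (by exact hy)]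
      obtain ⟨⟨j, b⟩, hLy⟩ : ∃ q, L y = q := ⟨_, rfl⟩
      rw [hLy] at hy
      rw [hLy]
      cases b
      · simp [w]
      · have : i ≠ j := by
          rintro rfl
          exact hy rfl
        simp [w, this]
  rw [this, integral_indicator (meas_L _), setIntegral_const, Measure.real, vol_L,
    ENNReal.toReal_ofReal (by positivity)]
  simp

lemma deg_true {x : I} {i : ℕ} (hx : L x = (i, true)) : (1 / 4 : ℝ) ≤ W0.deg x := by
  unfold Graphon.deg
  have h1 : ∀ y, Set.indicator (L ⁻¹' {((0, true) : ℕ × Bool)}) (fun _ => (1 : ℝ)) y ≤ W0.W x y := by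
    intro y
    by_cases hy : L y = (0, true)
    · rw [Set.indicator_of_mem (by exact hy), W0_apply, hx, hy]
      simp [w]
    · rw [Set.indicator_of_notMem (by exact hy)]
      exact W0.nonneg _ _
  have h2 : ∫ y, Set.indicator (L ⁻¹' {((0, true) : ℕ × Bool)}) (fun _ => (1 : ℝ)) y ≤ ∫ y, W0.W x y := by
    refine integral_mono ?_ ?_ h1
    · exact (integrable_const _).indicator (meas_L _)
    · refine Integrable.of_bound (C := 1) ?_ ?_
      · exact (W0.measurable.comp (measurable_const.prodMk measurable_id)).aestronglyMeasurable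
      · filter_upwards with z
        rw [Real.norm_eq_abs, abs_of_nonneg (W0.nonneg _ _)]
        exact W0.le_one _ _
  rw [integral_indicator (meas_L _), setIntegral_const, Measure.real, vol_L,
    ENNReal.toReal_ofReal (by positivity)] at h2
  norm_num at h2
  linarith

lemma W0_not_manySmall : ¬ W0.ManySmallDegrees := by
  intro h
  unfold Graphon.ManySmallDegrees at h
  have h1 : Tendsto (fun k : ℕ => (1 / 2 : ℝ) ^ (k + 3)) atTop (𝓝[>] 0) := by
    rw [tendsto_nhdsWithin_iff]
    refine ⟨(tendsto_pow_atTop_nhds_zero_of_lt_one (by norm_num) (by norm_num)).comp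
      (tendsto_add_atTop_nat 3), Filter.Eventually.of_forall fun k => ?_⟩
    exact Set.mem_Ioi.2 (by positivity)
  have h2 := h.comp h1
  have h3 := (h2.eventually_gt_atTop 2).exists
  obtain ⟨k, hk⟩ := h3
  simp only [Function.comp_apply] at hk
  have hsub : {x : I | W0.deg x ≤ (1 / 2 : ℝ) ^ (k + 3)} ⊆
      Set.Iio (⟨(1 / 2 : ℝ) ^ (k + 2), half_pow_mem _⟩ : I) := by
    intro x hx
    change (x : ℝ) < (1 / 2 : ℝ) ^ (k + 2)
    by_cases h0 : (x : ℝ) = 0
    · rw [h0]
      positivity
    obtain ⟨⟨i, b⟩, hLx⟩ : ∃ q, L x = q := ⟨_, rfl⟩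
    cases b
    · have hd := deg_false hLx
      have hx' : W0.deg x ≤ (1 / 2 : ℝ) ^ (k + 3) := hx
      rw [hd] at hx'
      have hik : k + 3 ≤ i + 2 := by
        by_contra hcon
        push Not at hcon
        have : (1 / 2 : ℝ) ^ (k + 3) < (1 / 2 : ℝ) ^ (i + 2) :=
          pow_lt_pow_right_of_lt_one₀ (by norm_num) (by norm_num) hcon
        linarith
      have h5 := ((L_false h0 i).1 hLx).2
      refine h5.trans_le ?_
      exact pow_le_pow_of_le_one (by norm_num) (by norm_num) (by omega)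
    · exfalso
      have hd := deg_true hLx
      have hx' : W0.deg x ≤ (1 / 2 : ℝ) ^ (k + 3) := hx
      have : (1 / 2 : ℝ) ^ (k + 3) ≤ (1 / 2 : ℝ) ^ 3 :=
        pow_le_pow_of_le_one (by norm_num) (by norm_num) (by omega)
      norm_num at this
      linarith
  have hm : volume.real {x : I | W0.deg x ≤ (1 / 2 : ℝ) ^ (k + 3)} ≤ (1 / 2 : ℝ) ^ (k + 2) := by
    calc volume.real {x : I | W0.deg x ≤ (1 / 2 : ℝ) ^ (k + 3)}
        ≤ volume.real (Set.Iio (⟨(1 / 2 : ℝ) ^ (k + 2), half_pow_mem _⟩ : I)) :=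
          measureReal_mono hsub
      _ = (1 / 2 : ℝ) ^ (k + 2) := by
          rw [Measure.real, unitInterval.volume_Iio, ENNReal.toReal_ofReal (by positivity)]
  have hp : (0 : ℝ) < (1 / 2 : ℝ) ^ (k + 3) := by positivity
  rw [lt_div_iff₀ hp] at hk
  have : (1 / 2 : ℝ) ^ (k + 2) = 2 * (1 / 2 : ℝ) ^ (k + 3) := by
    rw [pow_succ _ (k + 2)]
    ring
  linarith

/-! ### The sampled graph -/

/-- The graph on `Fin n` determined by the labels. -/
def H {n : ℕ} (Y : Fin n → ℕ × Bool) : SimpleGraph (Fin n) where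
  Adj i j := i ≠ j ∧ w (Y i) (Y j) = true
  symm := ⟨fun i j h => ⟨h.1.symm, by rw [w_symm]; exact h.2⟩⟩
  loopless := ⟨fun i h => h.1 rfl⟩

lemma H_adj {n : ℕ} (Y : Fin n → ℕ × Bool) (i j : Fin n) :
    (H Y).Adj i j ↔ i ≠ j ∧ w (Y i) (Y j) = true := Iff.rfl

open Classical in
lemma prod_eq {n : ℕ} (G : SimpleGraph (Fin n)) (X : Fin n → I) :
    (∏ e : Fin n × Fin n with e.1 < e.2,
      (if G.Adj e.1 e.2 then W0.W (X e.1) (X e.2) else 1 - W0.W (X e.1) (X e.2))) =
      if H (fun i => L (X i)) = G then 1 else 0 := by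
  by_cases h : H (fun i => L (X i)) = G
  · rw [if_pos h]
    refine Finset.prod_eq_one fun e he => ?_
    rw [Finset.mem_filter] at he
    have hne : e.1 ≠ e.2 := he.2.ne
    rw [← h]
    by_cases hw : w (L (X e.1)) (L (X e.2)) = true
    · rw [if_pos ((H_adj _ _ _).2 ⟨hne, hw⟩), W0_apply, if_pos hw]
    · rw [if_neg (fun h' => hw ((H_adj _ _ _).1 h').2), W0_apply, if_neg hw, sub_zero]
  · rw [if_neg h]
    have : ∃ i j : Fin n, i < j ∧ ¬ ((H (fun i => L (X i))).Adj i j ↔ G.Adj i j) := by
      by_contra hcon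
      push Not at hcon
      apply h
      ext i j
      rcases lt_trichotomy i j with hij | hij | hij
      · exact hcon i j hij
      · subst hij
        simp
      · rw [SimpleGraph.adj_comm, G.adj_comm]
        exact hcon j i hij
    obtain ⟨i, j, hij, hne⟩ := this
    refine Finset.prod_eq_zero (i := (i, j)) (Finset.mem_filter.2 ⟨Finset.mem_univ _, hij⟩) ?_
    simp only
    rw [H_adj] at hne
    by_cases hw : w (L (X i)) (L (X j)) = true
    · have hG : ¬ G.Adj i j := fun h' => hne ⟨fun _ => h', fun _ => ⟨hij.ne, hw⟩⟩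
      rw [if_neg hG, W0_apply, if_pos hw, sub_self]
    · have hG : G.Adj i j := by
        by_contra h'
        exact hne ⟨fun h2 => absurd h2.2 hw, fun h2 => absurd h2 h'⟩
      rw [if_pos hG, W0_apply, if_neg hw]

lemma measurable_labels (n : ℕ) : Measurable fun (X : Fin n → I) (i : Fin n) => L (X i) :=
  measurable_pi_lambda _ fun i => measurable_L.comp (measurable_pi_apply i)

lemma measurableSet_labels {n : ℕ} (S : Set (Fin n → ℕ × Bool)) : MeasurableSet S :=
  (Set.to_countable S).measurableSet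

open Classical in
lemma prob_eq {n : ℕ} (P : SimpleGraph (Fin n) → Prop) :
    W0.prob n P = (volume : Measure (Fin n → I)).real {X | P (H (fun i => L (X i)))} := by
  unfold Graphon.prob
  have hm : ∀ S : Set (Fin n → ℕ × Bool), MeasurableSet {X : Fin n → I | (fun i => L (X i)) ∈ S} :=
    fun S => measurable_labels n (measurableSet_labels S)
  have h1 : ∀ G : SimpleGraph (Fin n), (∫ X : Fin n → I,
      ∏ e : Fin n × Fin n with e.1 < e.2,
      (if G.Adj e.1 e.2 then W0.W (X e.1) (X e.2) else 1 - W0.W (X e.1) (X e.2))) =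
      (volume : Measure (Fin n → I)).real {X | H (fun i => L (X i)) = G} := by
    intro G
    have : (fun X : Fin n → I => ∏ e : Fin n × Fin n with e.1 < e.2,
      (if G.Adj e.1 e.2 then W0.W (X e.1) (X e.2) else 1 - W0.W (X e.1) (X e.2))) =
      Set.indicator {X | H (fun i => L (X i)) = G} (fun _ => (1 : ℝ)) := by
      funext X
      rw [prod_eq]
      rfl
    have hmG : MeasurableSet {X : Fin n → I | H (fun i => L (X i)) = G} := hm {Y | H Y = G}
    rw [this, integral_indicator hmG, setIntegral_const]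
    simp
  rw [Finset.sum_congr rfl fun G _ => h1 G]
  have h2 : {X : Fin n → I | P (H (fun i => L (X i)))} =
      ⋃ G ∈ (Finset.univ.filter fun G : SimpleGraph (Fin n) => P G),
        {X : Fin n → I | H (fun i => L (X i)) = G} := by
    ext X
    simp
  rw [h2, measureReal_biUnion_finset]
  · intro G _ G' _ hne
    refine Set.disjoint_left.2 ?_
    intro X hX hX'
    exact hne (hX.symm.trans hX')
  · intro G _
    exact hm {Y | H Y = G}

/-! ### The law of the labels -/

/-- The law of the label of a uniform point. -/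
noncomputable def nu : Measure (ℕ × Bool) := (volume : Measure I).map L

instance : IsProbabilityMeasure nu := Measure.isProbabilityMeasure_map measurable_L.aemeasurable

lemma nu_singleton (p : ℕ × Bool) : nu {p} = ENNReal.ofReal ((1 / 2 : ℝ) ^ (p.1 + 2)) := by
  rw [nu, Measure.map_apply measurable_L (measurableSet_singleton p), vol_L]

/-- The law of the labels of `n` uniform points. -/
noncomputable def nun (n : ℕ) : Measure (Fin n → ℕ × Bool) := Measure.pi fun _ => nu

instance (n : ℕ) : IsProbabilityMeasure (nun n) := by unfold nun; infer_instance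

lemma prob_eq' {n : ℕ} (P : SimpleGraph (Fin n) → Prop) :
    W0.prob n P = (nun n).real {Y | P (H Y)} := by
  rw [prob_eq]
  have : nun n = (volume : Measure (Fin n → I)).map (fun X i => L (X i)) := by
    rw [nun, volume_pi, Measure.pi_map_pi (fun i => measurable_L.aemeasurable)]
    rfl
  rw [this, Measure.real, Measure.real,
    Measure.map_apply (measurable_labels n) (measurableSet_labels _)]
  rfl

/-- The flip of the side at the levels selected by `s`. -/
def flip (s : ℕ → Bool) (p : ℕ × Bool) : ℕ × Bool := (p.1, xor p.2 (s p.1))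

lemma flip_flip (s : ℕ → Bool) (p : ℕ × Bool) : flip s (flip s p) = p := by
  obtain ⟨i, b⟩ := p
  simp [flip]

lemma nu_map_flip (s : ℕ → Bool) : nu.map (flip s) = nu := by
  have hm : Measurable (flip s) := measurable_of_countable _
  refine Measure.ext_of_singleton fun p => ?_
  rw [Measure.map_apply hm (measurableSet_singleton p)]
  have : flip s ⁻¹' {p} = {flip s p} := by
    ext q
    simp only [Set.mem_preimage, Set.mem_singleton_iff]
    constructor
    · rintro rfl
      rw [flip_flip]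
    · rintro rfl
      rw [flip_flip]
  rw [this, nu_singleton, nu_singleton]
  rfl

lemma nun_map_flip (n : ℕ) (s : ℕ → Bool) : (nun n).map (fun Y i => flip s (Y i)) = nun n := by
  have hm : Measurable (flip s) := measurable_of_countable _
  unfold nun
  have : ∀ _ : Fin n, SigmaFinite (nu.map (flip s)) := by
    intro _
    rw [nu_map_flip]
    infer_instance
  rw [Measure.pi_map_pi (fun i => hm.aemeasurable)]
  simp_rw [nu_map_flip]

/-- Number of vertices with label `p`. -/
def cnt {n : ℕ} (Y : Fin n → ℕ × Bool) (p : ℕ × Bool) : ℕ :=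
  (Finset.univ.filter fun i => Y i = p).card

lemma cnt_flip {n : ℕ} (s : ℕ → Bool) (Y : Fin n → ℕ × Bool) (p : ℕ × Bool) :
    cnt (fun i => flip s (Y i)) p = cnt Y (flip s p) := by
  unfold cnt
  congr 1
  ext i
  simp only [Finset.mem_filter, Finset.mem_univ, true_and]
  constructor
  · rintro rfl
    rw [flip_flip]
  · intro h
    rw [h, flip_flip]

/-- Extend a selection of the first `m` levels. -/
def ext (m : ℕ) (s : Fin m → Bool) (i : ℕ) : Bool := if h : i < m then s ⟨i, h⟩ else false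

/-- All the inequalities `#A_i < #C_i`, flipped according to `s`. -/
def Ev (n m : ℕ) (s : Fin m → Bool) : Set (Fin n → ℕ × Bool) :=
  {Y | ∀ i : Fin m, cnt Y (i, s i) < cnt Y (i, !s i)}

lemma Ev_eq (n m : ℕ) (s : Fin m → Bool) :
    Ev n m s = (fun Y i => flip (ext m s) (Y i)) ⁻¹' Ev n m (fun _ => false) := by
  ext Y
  simp only [Ev, Set.mem_preimage, Set.mem_ofPred_eq]
  refine forall_congr' fun i => ?_
  rw [cnt_flip, cnt_flip]
  have h : ext m s i = s i := by simp [ext, i.2]
  simp only [flip, h]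
  cases s i <;> simp

lemma Ev_measure (n m : ℕ) (s : Fin m → Bool) :
    (nun n).real (Ev n m s) = (nun n).real (Ev n m (fun _ => false)) := by
  have hm : Measurable (fun (Y : Fin n → ℕ × Bool) i => flip (ext m s) (Y i)) :=
    measurable_of_countable _
  rw [Ev_eq, Measure.real, ← Measure.map_apply hm (measurableSet_labels _), nun_map_flip]
  rfl

lemma Ev_le (n m : ℕ) : (nun n).real (Ev n m (fun _ => false)) ≤ (1 / 2 : ℝ) ^ m := by
  have hdisj : ∀ s s' : Fin m → Bool, s ≠ s' → Disjoint (Ev n m s) (Ev n m s') := by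
    intro s s' hne
    refine Set.disjoint_left.2 ?_
    intro Y hY hY'
    obtain ⟨i, hi⟩ := Function.ne_iff.1 hne
    have h1 := hY i
    have h2 := hY' i
    have : s' i = !s i := by
      cases h3 : s i <;> cases h4 : s' i <;> simp_all
    rw [this, Bool.not_not] at h2
    omega
  have hsum : ∑ s : Fin m → Bool, (nun n).real (Ev n m s) ≤ 1 := by
    rw [← measureReal_biUnion_finset]
    · exact measureReal_le_one
    · intro s _ s' _ hne
      exact hdisj s s' hne
    · intro s _
      exact measurableSet_labels _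
  rw [Finset.sum_congr rfl fun s _ => Ev_measure n m s, Finset.sum_const, Finset.card_univ,
    Fintype.card_fun, Fintype.card_bool, Fintype.card_fin, nsmul_eq_mul] at hsum
  rw [one_div, inv_pow]
  rw [← one_div, le_div_iff₀ (by positivity)]
  push_cast at hsum
  linarith

lemma nun_all (n : ℕ) (S : Set (ℕ × Bool)) :
    (nun n).real {Y | ∀ i, Y i ∈ S} = (nu.real S) ^ n := by
  have : {Y : Fin n → ℕ × Bool | ∀ i, Y i ∈ S} = Set.pi Set.univ (fun _ => S) := by
    ext Y
    simp
  rw [this, Measure.real, nun, Measure.pi_pi, Finset.prod_const, Finset.card_univ, Fintype.card_fin,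
    ENNReal.toReal_pow]
  rfl

lemma nu_real (p : ℕ × Bool) : nu.real {p} = (1 / 2 : ℝ) ^ (p.1 + 2) := by
  rw [Measure.real, nu_singleton, ENNReal.toReal_ofReal (by positivity)]

/-- The combinatorial core: what a Hamilton cycle forces. -/
lemma ham_imp {n : ℕ} (hn : n ≠ 1) (Y : Fin n → ℕ × Bool) (h : (H Y).IsHamiltonian) (i : ℕ) :
    cnt Y (i, false) < cnt Y (i, true) ∨ (∀ v, Y v ∈ ({(i, false)}ᶜ : Set (ℕ × Bool))) ∨
      (∀ v, Y v ∈ ({(i, false), (i, true)} : Set (ℕ × Bool))) := by
  by_contra hcon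
  push Not at hcon
  obtain ⟨h1, ⟨v, hv⟩, ⟨z, hz⟩⟩ := hcon
  have hcard : Fintype.card (Fin n) ≠ 1 := by simpa using hn
  have := card_lt h hcard (Finset.univ.filter fun v => Y v = (i, false))
    (Finset.univ.filter fun v => Y v = (i, true)) ⟨v, by simpa using hv⟩ ?_ ⟨z, ?_, ?_⟩
  · exact absurd this (by simpa [cnt] using h1)
  · intro x hx y hxy
    rw [Finset.mem_filter] at hx ⊢
    refine ⟨Finset.mem_univ _, ?_⟩
    have h2 := ((H_adj Y x y).1 hxy).2
    rw [hx.2] at h2
    obtain ⟨⟨j, b⟩, hYy⟩ : ∃ q, Y y = q := ⟨_, rfl⟩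
    rw [hYy] at h2 ⊢
    cases b
    · simp [w] at h2
    · simp [w] at h2
      rw [h2]
  · intro hz'
    simp at hz'
    exact hz (by simp [hz'])
  · intro hz'
    simp at hz'
    exact hz (by simp [hz'])

lemma prob_le (n m : ℕ) (hn : n ≠ 1) :
    W0.prob n (fun G => G.IsHamiltonian) ≤ (1 / 2 : ℝ) ^ m +
      ∑ i : Fin m, ((1 - (1 / 2 : ℝ) ^ (i.1 + 2)) ^ n + ((1 / 2 : ℝ) ^ (i.1 + 1)) ^ n) := by
  rw [prob_eq']
  have hsub : {Y : Fin n → ℕ × Bool | (H Y).IsHamiltonian} ⊆ Ev n m (fun _ => false) ∪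
      ⋃ i : Fin m, ({Y | ∀ v, Y v ∈ ({((i : ℕ), false)}ᶜ : Set (ℕ × Bool))} ∪
        {Y | ∀ v, Y v ∈ ({((i : ℕ), false), ((i : ℕ), true)} : Set (ℕ × Bool))}) := by
    intro Y hY
    by_contra hcon
    rw [Set.mem_union, not_or, Set.mem_iUnion, not_exists] at hcon
    obtain ⟨h1, h2⟩ := hcon
    apply h1
    intro i
    rcases ham_imp hn Y hY i with h | h | h
    · exact h
    · exact absurd (Or.inl h) (h2 i)
    · exact absurd (Or.inr h) (h2 i)
  calc (nun n).real {Y : Fin n → ℕ × Bool | (H Y).IsHamiltonian}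
      ≤ (nun n).real (Ev n m (fun _ => false) ∪
      ⋃ i : Fin m, ({Y | ∀ v, Y v ∈ ({((i : ℕ), false)}ᶜ : Set (ℕ × Bool))} ∪
        {Y | ∀ v, Y v ∈ ({((i : ℕ), false), ((i : ℕ), true)} : Set (ℕ × Bool))})) :=
        measureReal_mono hsub
    _ ≤ (nun n).real (Ev n m (fun _ => false)) + (nun n).real (⋃ i : Fin m,
        ({Y | ∀ v, Y v ∈ ({((i : ℕ), false)}ᶜ : Set (ℕ × Bool))} ∪
        {Y | ∀ v, Y v ∈ ({((i : ℕ), false), ((i : ℕ), true)} : Set (ℕ × Bool))})) :=
        measureReal_union_le _ _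
    _ ≤ (1 / 2 : ℝ) ^ m + ∑ i : Fin m, (nun n).real
        ({Y | ∀ v, Y v ∈ ({((i : ℕ), false)}ᶜ : Set (ℕ × Bool))} ∪
        {Y | ∀ v, Y v ∈ ({((i : ℕ), false), ((i : ℕ), true)} : Set (ℕ × Bool))}) :=
        add_le_add (Ev_le n m) (measureReal_iUnion_fintype_le _)
    _ ≤ _ := by
        gcongr with i
        refine (measureReal_union_le _ _).trans ?_
        rw [nun_all, nun_all]
        refine add_le_add (le_of_eq ?_) (le_of_eq ?_)
        · rw [probReal_compl_eq_one_sub (measurableSet_singleton _), nu_real]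
        · congr 1
          rw [show ({((i : ℕ), false), ((i : ℕ), true)} : Set (ℕ × Bool)) =
            {((i : ℕ), false)} ∪ {((i : ℕ), true)} from rfl,
            measureReal_union (by simp) (measurableSet_singleton _), nu_real, nu_real]
          simp only
          ring

lemma W0_prob_tendsto :
    Tendsto (fun n => W0.prob n (fun G => G.IsHamiltonian)) atTop (𝓝 0) := by
  have hnonneg : ∀ n, 0 ≤ W0.prob n (fun G => G.IsHamiltonian) := by
    intro n
    rw [prob_eq']
    exact measureReal_nonneg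
  rw [Metric.tendsto_atTop]
  intro ε hε
  obtain ⟨m, hm⟩ := exists_pow_lt_of_lt_one (show 0 < ε / 2 by linarith)
    (show (1 / 2 : ℝ) < 1 by norm_num)
  have hlim : Tendsto (fun n : ℕ =>
      ∑ i : Fin m, ((1 - (1 / 2 : ℝ) ^ (i.1 + 2)) ^ n + ((1 / 2 : ℝ) ^ (i.1 + 1)) ^ n))
      atTop (𝓝 0) := by
    have : Tendsto (fun n : ℕ =>
      ∑ i : Fin m, ((1 - (1 / 2 : ℝ) ^ (i.1 + 2)) ^ n + ((1 / 2 : ℝ) ^ (i.1 + 1)) ^ n))
      atTop (𝓝 (∑ _i : Fin m, ((0 : ℝ) + 0))) := by
      refine tendsto_finsetSum _ fun i _ => ?_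
      have p1 : (0 : ℝ) < (1 / 2 : ℝ) ^ (i.1 + 2) := by positivity
      have p2 := half_pow_le i.1
      have p3 : (0 : ℝ) < (1 / 2 : ℝ) ^ (i.1 + 1) := by positivity
      have p4 := half_pow_le (i.1 + 1)
      refine Tendsto.add ?_ ?_
      · exact tendsto_pow_atTop_nhds_zero_of_lt_one (by linarith) (by linarith)
      · exact tendsto_pow_atTop_nhds_zero_of_lt_one (by linarith) (by linarith)
    simpa using this
  obtain ⟨N, hN⟩ := (Metric.tendsto_atTop.1 hlim) (ε / 2) (by linarith)
  refine ⟨N + 2, fun n hn => ?_⟩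
  have h1 := prob_le n m (by omega)
  have h2 := hN n (by omega)
  rw [Real.dist_eq, sub_zero] at h2 ⊢
  rw [abs_of_nonneg (hnonneg n)]
  have h3 := le_abs_self (∑ i : Fin m, ((1 - (1 / 2 : ℝ) ^ (i.1 + 2)) ^ n + ((1 / 2 : ℝ) ^ (i.1 + 1)) ^ n))
  linarith

/-- Q1 is false: there is a graphon on `[0,1]` which is connected, has not too many small degrees,
has no narrow peninsula and is not balanced bipartite, and yet
`Pr[G(n, W) is Hamiltonian] → 0`. -/
theorem result : ∃ W : Graphon, W.Connected ∧ ¬ W.ManySmallDegrees ∧ ¬ W.NarrowPeninsula ∧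
    ¬ W.BalancedBipartite ∧
    Tendsto (fun n => W.prob n (fun G => G.IsHamiltonian)) atTop (𝓝 0) :=
  ⟨W0, W0_connected, W0_not_manySmall, W0_no_peninsula, W0_not_bipartite, W0_prob_tendsto⟩

end Pool.Agent.Results.MP_e2d9cc_pr.ManyPeninsulas
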